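import Pool.Agent.Helper83.T5C.StB
import Pool.Agent.Helper76.TH3.StC3
import Pool.Agent.Helper78.W3.StC

/-!
# Levels `5 * 3^n`, `W_5 = +1`: upper bound for new symbols

The shape of `Helper76/TH3/StC3.lean` (levels `2 * 3^n`, all modules closed: `Pool/Agent/Helper*/TH3/M_*H3.lean`) and of `Helper76/TK5/StK.lean` (levels `3 * 5^n`, `Pool/Agent/Helper*/TK5/M_*K.lean`) on the plane of TH3 (`Pt`, `trp`, `ng`, `dR`, `Kl`, `Iv`, `Dv`, `Ty`, `anti3`, `inv3`; closed theorems `HDimK3`: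
`Pool.Agent.Helper2.TH3.hDimKH3 Pool.Agent.Helper10.W3.hTrq`, `HSplit3`: `Pool.Agent.Helper16.TH3.hSplH3`), with the group of the matrices `(a 3^μ b; 3c d)` of type `HTy` of `Helper28/T5/Defs.lean` (determinant one and `5 ∣ c`, or determinant five and `5 ∣ a, c, d`). Standard matrices have a lower left entry divisible by `5`. RULE FOR REFLECTIONS.
`val π = {u, v} = G(gu) - G(gv)` for the path `π` from `v` to `u`, `F_π(p)` the value at the coordinates `p` of `g`. `b = (0 1; 5 0)` (even exponents, `μ = 1`), `b = (0 1; 15 0)` (odd exponents, `μ = 0`): if `g` has coordinates `p = (x, y)`, then `b⁻¹ g b` has coordinates `swH p = (y/5, 5x)`, `* g *` has `ng p`, `g M` has `trp μ a b c d p` for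
`M = (a 3^μ b; 3c d)` of type `HTy`. `G∘* ≈ G`, `G∘b ≈ -G`. So for `ρ = M`: the value of `G` at the path `g ρ π` is `F_π(trp M p)`; for `ρ = b M` (up to a scalar): `-F_π(trp M (swH p))`; for `ρ = * M`: `F_π(trp M (ng p))`; for `ρ = b * M`: `-F_π(trp M (ng (swH p)))`. All relations and the dimensions `3, 21, 171` (odd), `7, 57, 495`
(even, `m = 1, 2, 3`) were checked by machine.
-/

set_option autoImplicit false

namespace Pool.Agent.Helper76.Q5P3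

open Pool.Agent.Helper14.CV (Homog EqC act StFar)
open Pool.Agent.Helper76.TH3 (Pt trp ng dR Iv Kl Dv Ty anti3 inv3 HDimK3 HSplit3)
open Pool.Agent.Helper28.T5
open Pool.Agent.Helper83.T5C (UBH)

/-- The matrix `(a, 3^μ b; 3 c, d)` is of type `HTy` and has plane coordinates `(x, y)`. -/
def PlH (μ : ℕ) {q q' : ℕ} (a b c d : ℤ) (x : ZMod q) (y : ZMod q') : Prop :=
  HTy a (3 ^ μ * b) (3 * c) d ∧ (b : ZMod q) = x * a ∧ (c : ZMod q') = y * d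

/-- The entry `Y` (divisible by `5`) of the standard matrix `(1, 3^μ X; 3 Y, 1 + 3^(μ+1) X Y)`, `X = x.val`. -/
noncomputable def rYH (μ : ℕ) {q q' : ℕ} (x : ZMod q) (y : ZMod q') : ℤ :=
  5 * ((y * (5 * (1 - 3 ^ (μ + 1) * ((x.val : ℕ) : ZMod q') * y))⁻¹).val : ℤ)

/-- The value of the symbol of `G` on the path from `g v` to `g u`, `g` the standard matrix with plane coordinates `(x, y)`. -/
noncomputable def edgeH {R : Type} [AddCommGroup R] (μ : ℕ) {q q' : ℕ} (u1 u2 v1 v2 : ℤ)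
    (G : ℤ → ℤ → R) (x : ZMod q) (y : ZMod q') : R :=
  G (u1 + 3 ^ μ * (x.val : ℤ) * u2) (3 * rYH μ x y * u1 + (1 + 3 ^ (μ + 1) * (x.val : ℤ) * rYH μ x y) * u2)
  - G (v1 + 3 ^ μ * (x.val : ℤ) * v2) (3 * rYH μ x y * v1 + (1 + 3 ^ (μ + 1) * (x.val : ℤ) * rYH μ x y) * v2)

/-- PLA. The standard matrix is of type `HTy` (first case) and has the right coordinates. (`5 (1 - 3^(μ+1) X y)` is a unit of `ZMod (3^s)`.) Models: `Pool/Agent/Helper76/TK5/M_PLAK.lean`, `Pool/Agent/Helper88/TH3/M_PLAH3.lean`. -/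
def HPlA : Prop := ∀ (μ r s : ℕ) (x : ZMod (3 ^ r)) (y : ZMod (3 ^ s)),
  PlH μ 1 (x.val : ℤ) (rYH μ x y) (1 + 3 ^ (μ + 1) * (x.val : ℤ) * rYH μ x y) x y

/-- The content of EDG. -/
def HEdg : Prop := ∀ (R : Type) (_ : AddCommGroup R) (μ r s : ℕ) (G : ℤ → ℤ → R),
  SymH 3 (r + μ) (s + 1) G → ∀ (u1 u2 v1 v2 : ℤ), (u1 ≠ 0 ∨ u2 ≠ 0) → (v1 ≠ 0 ∨ v2 ≠ 0) →
  ∀ (x : ZMod (3 ^ r)) (y : ZMod (3 ^ s)) (a b c d : ℤ), PlH μ a b c d x y →
  edgeH μ u1 u2 v1 v2 G x y = G (a * u1 + 3 ^ μ * b * u2) (3 * c * u1 + d * u2) -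
    G (a * v1 + 3 ^ μ * b * v2) (3 * c * v1 + d * v2)

/-- EDG (from PLA). Models: `Pool/Agent/Helper45/TK5/M_EDGK.lean`, `Pool/Agent/Helper85/TH3/M_EDGH3.lean`. -/
def StHEdg : Prop := HPlA → HEdg

/-- Balanced new symbols, even exponent `n = 2k`. -/
def BalEH (k : ℕ) (G : ℤ → ℤ → ℂ) : Prop :=
  SymH 3 k k G ∧ EqC (∑ i ∈ Finset.range 3, act 1 (i * 3 ^ (k - 1)) 0 1 G) 0 ∧
    EqC (∑ i ∈ Finset.range 3, act 1 0 (5 * i * 3 ^ (k - 1)) 1 G) 0 ∧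
    EqC (act 0 (-1) 5 0 G) (-G) ∧ EqC (act (-1) 0 0 1 G) G

/-- Balanced new symbols, odd exponent `n = 2k+1`. -/
def BalOH (k : ℕ) (G : ℤ → ℤ → ℂ) : Prop :=
  SymH 3 k (k + 1) G ∧ EqC (∑ i ∈ Finset.range 3, act 1 (i * 3 ^ (k - 1)) 0 1 G) 0 ∧
    EqC (∑ i ∈ Finset.range 3, act 1 0 (5 * i * 3 ^ k) 1 G) 0 ∧
    EqC (act 0 (-1) 15 0 G) (-G) ∧ EqC (act (-1) 0 0 1 G) G

/-- BAL. Transport to the balanced form by `D = (1 0; 0 3^k)`. Models: `Pool/Agent/Helper71/TK5/M_BALK.lean`, `Pool/Agent/Helper89/TH3/M_BALH3.lean`. -/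
def HBal : Prop := ∀ (k : ℕ) (G : ℤ → ℤ → ℂ), 1 ≤ k →
  (NewSymH 3 (2 * k) G → BalEH k (act 1 0 0 (3 ^ k) G)) ∧
  (NewSymH 3 (2 * k + 1) G → BalOH k (act 1 0 0 (3 ^ k) G)) ∧
  (Homog G → EqC (act 1 0 0 (3 ^ k) G) 0 → EqC G 0)

/-! ### Functions on the plane -/

/-- `(x, y) ↦ (y/5, 5x)`. -/
def swH {m : ℕ} (p : Pt m) : Pt m := (p.2 * (5 : ZMod (3 ^ m))⁻¹, 5 * p.1)

/-- Odd exponent (`μ = 0`): the circle around `1/2`, matrix `(15 -7; 30 -15) = b (2 -1; 15 -7)`. -/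
def cOH {m : ℕ} (p : Pt m) : Pt m := trp 0 2 (-1) 5 (-7) (swH p)

/-- Odd exponent: the rotation of order two `(5 -2; 15 -5)` (determinant five, an element of the group), which exchanges `∞` and `1/3`. -/
def deH {m : ℕ} (p : Pt m) : Pt m := trp 0 5 (-2) 5 (-5) p

/-- Even exponent (`μ = 1`): the circle over `[2/5, 1/2]`, matrix `(9 -4; 20 -9)`, `b (20 -9; 45 -20) = 5 (9 -4; 20 -9)`. -/
def c1H {m : ℕ} (p : Pt m) : Pt m := trp 1 20 (-3) 15 (-20) (swH p)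

/-- Even exponent: the rotation of order two which exchanges `1` and `1/2`, matrix `(3 -2; 5 -3)`, `b * (5 -3; -15 10) = -5 (3 -2; 5 -3)`. -/
def rhH {m : ℕ} (p : Pt m) : Pt m := trp 1 5 (-1) (-5) 10 (ng (swH p))

/-- Even exponent: the circle around `3/2`, matrix `(15 -22; 10 -15) = b (2 -3; 15 -22)`. -/
def c2H {m : ℕ} (p : Pt m) : Pt m := trp 1 2 (-1) 5 (-22) (swH p)

/-- Even exponent: the circle over `[1, 7/5]`, matrix `(6 -7; 5 -6)`, `b (5 -6; 30 -35) = 5 (6 -7; 5 -6)`. -/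
def c5H {m : ℕ} (p : Pt m) : Pt m := trp 1 5 (-2) 10 (-35) (swH p)

/-- TYP. The maps above and their types. Proof as TYPH3, TYPK (`Pool/Agent/Helper27/TH3/M_TYPH3.lean`, `Pool/Agent/Helper44/TK5/M_TYPK.lean`): `trp μ M' (trp μ M p) = trp μ (M M') p`, `trp` does not change under scalars prime to `3`, `swH (trp μ a b c d p) = trp μ d (c/5) (5b) a (swH p)` (`5 ∣ c`),
`ng (trp μ a b c d p) = trp μ a (-b) (-c) d (ng p)`, `swH (swH p) = p`, `ng (swH p) = swH (ng p)`; so all relations are identities of matrices up to a scalar (`deH (swH p) = cOH (deH p)`: `(0 1; 15 0) (5 -2; 15 -5) = (15 -5; 75 -30) = (5 -2; 15 -5) (15 -7; 30 -15)`). Derivatives: `det/a²`, `det/d²` modulo `3` (and `1/5`, `5` for `swH`);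
all type `0` maps here have both derivatives `≡ -1` (`swH (c1H p)` and `c2H (c5H p)` are given by the matrices `(20 -9; 45 -20)`, `(20 -27; 15 -20)` of determinant five). -/
def HTyp : Prop := ∀ m : ℕ,
  (Kl (ng : Pt m → Pt m) swH ∧ Ty 0 (ng : Pt m → Pt m) ∧ Ty 1 (swH : Pt m → Pt m) ∧ Ty 1 (fun p : Pt m => ng (swH p))) ∧
  (Kl (dR 0 : Pt m → Pt m) cOH ∧ Ty 0 (dR 0 : Pt m → Pt m) ∧ Ty 1 (cOH : Pt m → Pt m) ∧ Ty 1 (fun p : Pt m => dR 0 (cOH p))) ∧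
  (Iv (deH : Pt m → Pt m) ∧ Ty 0 (deH : Pt m → Pt m) ∧ ∀ p : Pt m, deH (swH p) = cOH (deH p)) ∧
  (Kl (dR 1 : Pt m → Pt m) c2H ∧ Ty 0 (dR 1 : Pt m → Pt m) ∧ Ty 1 (c2H : Pt m → Pt m) ∧ Ty 1 (fun p : Pt m => dR 1 (c2H p))) ∧
  (Kl (swH : Pt m → Pt m) c1H ∧ Ty 1 (c1H : Pt m → Pt m) ∧ Ty 0 (fun p : Pt m => swH (c1H p))) ∧
  (Kl (c2H : Pt m → Pt m) c5H ∧ Ty 1 (c5H : Pt m → Pt m) ∧ Ty 0 (fun p : Pt m => c2H (c5H p))) ∧
  (Iv (rhH : Pt m → Pt m) ∧ Ty 1 (rhH : Pt m → Pt m))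

/-- The content of DIM1. -/
def HDim1 : Prop := ∀ m : ℕ, 1 ≤ m → ∀ (r : Pt m → Pt m) (n : ℕ) (e : ℤ), Iv r → Ty n r → (e = 1 ∨ e = -1) →
  2 * (Module.finrank ℂ (inv3 r r (e : ℂ) (e : ℂ)) : ℤ) = 4 * 9 ^ (m - 1) + e * n * (2 * 3 ^ (m - 1))

/-- DIM1 (from TRQ). One involution, both types: average of the traces over `{1, r}`: `4·9^(m-1)` for the identity, `0` for type `0`, `2·3^(m-1)` for an involution of type `1`. Model: the second part (`inv1`) of `Pool/Agent/Helper71/S7/M_DimK.lean` and `Pool/Agent/Helper2/TH3/M_DIMKH3.lean` (private lemmas; copy the file). -/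
def StHDim1 : Prop := Pool.Agent.Helper78.W3.S3Trq → HDim1

/-- The target for odd exponents: `((f, l), e)`, the values `{∞, 0}`, `{∞, 1/2}`, `{∞, 1/3}`. -/
def subOH (m : ℕ) : Submodule ℂ (((Pt m → ℂ) × (Pt m → ℂ)) × (Pt m → ℂ)) where
  carrier := {F | F.1.1 ∈ inv3 (m := m) ng swH 1 1 ∧ F.1.2 ∈ inv3 (m := m) (dR 0) cOH 1 1 ∧
    F.2 ∈ inv3 (m := m) deH deH (-1) (-1) ∧
    ∀ p : Pt m, F.2 p + F.2 (swH p) + F.1.2 (deH p) - F.1.1 p = 0}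
  add_mem' := by
    rintro F F' ⟨h0, h1, h2, h⟩ ⟨h0', h1', h2', h'⟩
    refine ⟨Submodule.add_mem _ h0 h0', Submodule.add_mem _ h1 h1', Submodule.add_mem _ h2 h2',
      fun p => ?_⟩
    have a1 := h p
    have b1 := h' p
    simp only [Prod.fst_add, Prod.snd_add, Pi.add_apply]
    linear_combination a1 + b1
  zero_mem' := ⟨Submodule.zero_mem _, Submodule.zero_mem _, Submodule.zero_mem _,
    by intro p; simp⟩
  smul_mem' := by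
    rintro c F ⟨h0, h1, h2, h⟩
    refine ⟨Submodule.smul_mem _ c h0, Submodule.smul_mem _ c h1, Submodule.smul_mem _ c h2,
      fun p => ?_⟩
    have a1 := h p
    simp only [Prod.smul_fst, Prod.smul_snd, Pi.smul_apply, smul_eq_mul]
    linear_combination c * a1

/-- The value `{1/2, 2/5}` in terms of `f = {∞, 0}` and `l = {∞, 1/2}`. -/
def hhH {m : ℕ} (f l : Pt m → ℂ) (p : Pt m) : ℂ := f p - l p - l (swH p)

/-- The value `{7/5, 1}` in terms of `l = {∞, 1/2}`, `w = {1/2, 1}`, `M = {∞, 3/2}`. -/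
def ggH {m : ℕ} (l w M : Pt m → ℂ) (p : Pt m) : ℂ := l p + w p + l (c2H p) + w (c2H p) - M p

/-- The target for even exponents: `((f, l), (w, M))`, the values `{∞, 0}`, `{∞, 1/2}`, `{1/2, 1}`, `{∞, 3/2}`. -/
def subEH (m : ℕ) : Submodule ℂ (((Pt m → ℂ) × (Pt m → ℂ)) × ((Pt m → ℂ) × (Pt m → ℂ))) where
  carrier := {F | F.1.1 ∈ inv3 (m := m) ng swH 1 1 ∧ F.1.2 ∈ anti3 m ∧
    F.2.1 ∈ inv3 (m := m) rhH rhH 1 1 ∧ F.2.2 ∈ inv3 (m := m) (dR 1) c2H 1 1 ∧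
    (∀ p : Pt m, hhH F.1.1 F.1.2 p + hhH F.1.1 F.1.2 (c1H p) = 0) ∧
    (∀ p : Pt m, ggH F.1.2 F.2.1 F.2.2 p + ggH F.1.2 F.2.1 F.2.2 (c5H p) = 0)}
  add_mem' := by
    rintro F F' ⟨h0, h1, h2, h3, h5, h6⟩ ⟨h0', h1', h2', h3', h5', h6'⟩
    refine ⟨Submodule.add_mem _ h0 h0', (anti3 m).add_mem h1 h1', Submodule.add_mem _ h2 h2',
      Submodule.add_mem _ h3 h3', fun p => ?_, fun p => ?_⟩
    · have a := h5 p
      have b := h5' p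
      simp only [hhH, Prod.fst_add, Prod.snd_add, Pi.add_apply] at a b ⊢
      linear_combination a + b
    · have a := h6 p
      have b := h6' p
      simp only [ggH, Prod.fst_add, Prod.snd_add, Pi.add_apply] at a b ⊢
      linear_combination a + b
  zero_mem' := ⟨Submodule.zero_mem _, (anti3 m).zero_mem, Submodule.zero_mem _,
    Submodule.zero_mem _, by intro p; simp [hhH], by intro p; simp [ggH]⟩
  smul_mem' := by
    rintro c F ⟨h0, h1, h2, h3, h5, h6⟩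
    refine ⟨Submodule.smul_mem _ c h0, (anti3 m).smul_mem c h1, Submodule.smul_mem _ c h2,
      Submodule.smul_mem _ c h3, fun p => ?_, fun p => ?_⟩
    · have a := h5 p
      simp only [hhH, Prod.smul_fst, Prod.smul_snd, Pi.smul_apply, smul_eq_mul] at a ⊢
      linear_combination c * a
    · have a := h6 p
      simp only [ggH, Prod.smul_fst, Prod.smul_snd, Pi.smul_apply, smul_eq_mul] at a ⊢
      linear_combination c * a

/-- The content of DIMO. -/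
def HDimO : Prop := ∀ m : ℕ, 1 ≤ m →
  Module.finrank ℂ (subOH m) = 2 * 9 ^ (m - 1) + 3 ^ (m - 1)

/-- DIMO (from TYP, DIM1, HDimK3, SPLIT). `a = 9^(m-1)`, `b = 3^(m-1)`. `Vf = inv3 ng swH 1 1`, `Vl = inv3 (dR 0) cOH 1 1` have dimension `a + b` (types `0, 1, 1`), `Ve = inv3 deH deH (-1) (-1)` has `2a` (DIM1, type `0`), `VW = inv3 swH swH 1 1` has `2a + b` (DIM1, type `1`). The map
`((f, l), e) ↦ e + e∘swH + l∘deH - f` from `(Vf × Vl) × Ve` to `VW` (`l∘deH∘swH = l∘cOH∘deH = l∘deH`) is onto: for `φ` in `VW` let (SPLIT, `μ = 0`) `φ/2 = f0 + l0`, `f0` invariant under `ng`, `l0` under `dR 0`; take `f = -(f0 + f0∘swH)`, `e = l0 - l0∘deH`, `l = l0 + l0∘cOH` (`ng` commutes with `swH`, `dR 0` with `cOH`; composition with `deH`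
preserves `anti3 m`, type `0`): `e + e∘swH + l∘deH = l0 - l0∘deH + l0∘swH - l0∘deH∘swH + l0∘deH + l0∘cOH∘deH = l0 + l0∘swH` (`cOH∘deH = deH∘swH`), so the image is `(1 + swH)(f0 + l0) = (φ + φ∘swH)/2 = φ`. The kernel is `subOH m`: `(a+b) + (a+b) + 2a - (2a+b)`. Models: `Pool/Agent/Helper94/TK5/M_DIMOK.lean`, `Pool/Agent/Helper71/TH3/M_DIMOH3.lean`. -/
def StHDimO : Prop := HTyp → HDim1 → HDimK3 → HSplit3 → HDimO

/-- The content of DIME. -/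
def HDimE : Prop := ∀ m : ℕ, 1 ≤ m → Module.finrank ℂ (subEH m) = 6 * 9 ^ (m - 1) + 3 ^ (m - 1)

/-- DIME (from TYP, DIM1, HDimK3, SPLIT). `V = anti3 m` has dimension `4a`, `Vf = inv3 ng swH 1 1` and `VM = inv3 (dR 1) c2H 1 1` have `a + b` (types `0, 1, 1`), `Vw = inv3 rhH rhH 1 1` has `2a + b` (DIM1), `T1 = inv3 swH c1H 1 1` and `T2 = inv3 c2H c5H 1 1` have `a + b` (types `1, 1, 0`). The map
`((f, l), (w, M)) ↦ (h + h∘c1H, g + g∘c5H)`, `h = hhH f l` (invariant under `swH`), `g = ggH l w M` (invariant under `c2H`), from `(Vf × V) × (Vw × VM)` to `T1 × T2` is onto: given `(φ, ψ)` let (SPLIT, `μ = 1`) `φ/4 + ψ/4 = f0 + l0`, `f0` invariant under `ng`, `l0` under `dR 1`; take `w = 0`, `f = f0 + f0∘swH`, `M = -(l0 + l0∘c2H)`, `l = f0 - φ/4`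
(so `l = ψ/4 - l0`). Then `h = (1 + swH)(f0 - l) = (1 + swH)(φ/4) = φ/2`, `h + h∘c1H = φ`; `g = (1 + c2H)(l + l0) = (1 + c2H)(ψ/4) = ψ/2`, `g + g∘c5H = ψ`. The kernel is `subEH m`: `(a+b) + 4a + (2a+b) + (a+b) - (a+b) - (a+b) = 6a + b`. Models: `Pool/Agent/Helper56/TK5/M_DIMEK.lean`, `Pool/Agent/Helper53/TH3/M_DIMEH3.lean`. -/
def StHDimE : Prop := HTyp → HDim1 → HDimK3 → HSplit3 → HDimE

/-! ### Representatives -/

/-- Twelve representatives with bottom row proportional to `(0, 1)` modulo `5` (of the classes of `SL₂(ℤ)` modulo `(* 3*; 15* *)`). -/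
def LH01 : List (ℤ × ℤ × ℤ × ℤ) :=
  [(3, 1, 5, 2), (-3, -2, 5, 3), (-4, -1, 5, 1), (4, -1, 5, -1), (4, -5, 5, -6), (-4, -5, 5, 6), (-1, -1, 0, -1),
   (-1, 1, 0, -1), (-1, 0, 0, -1), (-3, 1, 5, -2), (-4, 3, 5, -4), (4, 3, 5, 4)]

/-- Twelve representatives with bottom row proportional to `(1, 0)` modulo `5` (of the classes of `SL₂(ℤ)` modulo `(* 3*; 15* *)`). -/
def LH10 : List (ℤ × ℤ × ℤ × ℤ) :=
  [(-1, -3, 2, 5), (5, 4, 6, 5), (-3, -4, 4, 5), (-1, 4, 1, -5), (3, -4, 4, -5), (1, -1, 1, 0), (1, 4, 1, 5),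
   (-1, -1, 1, 0), (-5, 4, 6, -5), (1, -3, 2, -5), (-2, 3, 3, -5), (0, -1, 1, 0)]

/-- Twelve representatives with bottom row proportional to `(1, 1)` modulo `5` (of the classes of `SL₂(ℤ)` modulo `(* 3*; 15* *)`). -/
def LH11 : List (ℤ × ℤ × ℤ × ℤ) :=
  [(-2, 1, 3, -2), (-1, -2, 1, 1), (0, -1, 1, 1), (4, -3, 3, -2), (-1, 3, 1, -4), (-5, 1, 4, -1), (1, -2, 2, -3),
   (3, -1, 4, -1), (-5, -1, 6, 1), (1, 5, 1, 6), (-3, 4, 2, -3), (1, 0, 1, 1)]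

/-- Twelve representatives with bottom row proportional to `(1, 2)` modulo `5` (of the classes of `SL₂(ℤ)` modulo `(* 3*; 15* *)`). -/
def LH12 : List (ℤ × ℤ × ℤ × ℤ) :=
  [(-2, -1, 3, 1), (4, 1, 3, 1), (3, 2, 4, 3), (0, -1, 1, 2), (-1, 0, 2, -1), (-1, -3, 1, 2), (1, 1, 1, 2),
   (2, -3, 3, -4), (-3, 1, 2, -1), (-1, 2, 1, -3), (1, -4, 1, -3), (1, -1, 2, -1)]

/-- Twelve representatives with bottom row proportional to `(1, 3)` modulo `5` (of the classes of `SL₂(ℤ)` modulo `(* 3*; 15* *)`). -/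
def LH13 : List (ℤ × ℤ × ℤ × ℤ) :=
  [(1, 0, 2, 1), (0, -1, 1, -2), (-2, -3, 3, 4), (-1, 1, 1, -2), (-3, 2, 4, -3), (2, -1, 3, -1), (-4, 1, 3, -1),
   (1, -3, 1, -2), (-1, -4, 1, 3), (1, 2, 1, 3), (-1, -1, 2, 1), (3, 1, 2, 1)]

/-- Twelve representatives with bottom row proportional to `(1, 4)` modulo `5` (of the classes of `SL₂(ℤ)` modulo `(* 3*; 15* *)`). -/
def LH14 : List (ℤ × ℤ × ℤ × ℤ) :=
  [(-2, 1, 1, -1), (3, 4, 2, 3), (1, 3, 1, 4), (2, 1, 3, 2), (-1, -2, 2, 3), (-4, -3, 3, 2), (5, -1, 6, -1),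
   (-1, 0, 1, -1), (-1, -5, 1, 4), (-3, -1, 4, 1), (0, -1, 1, -1), (-1, 5, 1, -6)]

/-- The twenty-four representatives of `Γ₀(15) \ SL₂(ℤ)`. -/
def LHO : List (ℤ × ℤ × ℤ × ℤ) :=
  [(-2, 1, 5, -3), (2, -1, 5, -2), (-2, -1, 5, 2), (-1, 0, 0, -1), (0, -1, 1, 0), (-1, -2, 3, 5), (1, 2, 2, 5),
   (-1, 2, 2, -5), (1, -1, 3, -2), (0, -1, 1, 1), (-1, 1, 2, -3), (-1, 3, 1, -4), (1, 0, 3, 1), (0, -1, 1, 2),
   (-1, 0, 2, -1), (0, -1, 1, -3), (0, -1, 1, 3), (1, 0, 2, 1), (-1, 0, 3, -1), (0, -1, 1, -2), (-1, 0, 1, -1),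
   (-1, -1, 3, 2), (-3, -1, 4, 1), (1, 1, 2, 3)]

/-- The content of E1A. -/
def HE1a : Prop := ∀ (k : ℕ) (G : ℤ → ℤ → ℂ), 2 ≤ k → BalEH k G →
  (((fun p : Pt (k - 1) => edgeH 1 1 0 0 1 G p.1 p.2), (fun p : Pt (k - 1) => edgeH 1 1 0 1 2 G p.1 p.2)),
    ((fun p : Pt (k - 1) => edgeH 1 1 2 1 1 G p.1 p.2), (fun p : Pt (k - 1) => edgeH 1 1 0 3 2 G p.1 p.2))) ∈ subEH (k - 1)

/-- E1A (from EDG, PLA, TYP). Even exponent, `m = k - 1`, `μ = 1`: `f = {∞, 0}`, `l = {∞, 1/2}`, `w = {1/2, 1}`, `M = {∞, 3/2}`. (i) `anti3`: `(1 i3^(k-1); 0 1) g` has coordinates `(x + i 3^(k-2), y)`, `(1 0; 5i3^(k-1) 1) g` has `(x, y + 5i 3^(k-2))` for standard `g` (`i ↦ 5i` is a bijection modulo `3`).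
(ii) By the rule at the head of this file: `f(ng p) = f(p)`, `f(swH p) = -{0, ∞} = f(p)`; `w(rhH p) = -{1, 1/2} = w(p)` (`(3 -2; 5 -3)`); `M(dR 1 p) = M(p)` (`(-1 3; 0 1)` fixes `3/2`), `M(c2H p) = -{3/2, ∞} = M(p)` (`(15 -22; 10 -15)` exchanges `∞` and `3/2`). (iii) `l(swH p) = -{0, 2/5}`, so `hhH f l p = {∞,0} - {∞,1/2} + {0,2/5} = {1/2, 2/5}`
(as `{u,v} = G(gu) - G(gv)`), and `(9 -4; 20 -9)` fixes `1/2`, `2/5`: `hhH (c1H p) = -hhH p`. (iv) `l + w = {∞, 1}`, `(l + w)(c2H p) = -{3/2, 7/5}`, so `ggH l w M p = {∞,1} - {3/2,7/5} - {∞,3/2} = {7/5, 1}`, and `(6 -7; 5 -6)` fixes `1`, `7/5`: `ggH (c5H p) = -ggH p`. Models: `Pool/Agent/Helper55/TK5/M_E1AK.lean`, `Pool/Agent/Helper9/TH3/M_E1AH3.lean`. -/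
def StHE1a : Prop := HEdg → HPlA → HTyp → HE1a

/-- The content of E1B. -/
def HE1b : Prop := ∀ (k : ℕ) (G : ℤ → ℤ → ℂ), 2 ≤ k → BalEH k G →
  (∀ x y : ZMod (3 ^ (k - 1)), (edgeH 1 1 0 0 1 G x y = 0 ∧ edgeH 1 1 0 1 2 G x y = 0) ∧
    (edgeH 1 1 2 1 1 G x y = 0 ∧ edgeH 1 1 0 3 2 G x y = 0)) → EqC G 0

/-- E1B (from EDG, PLA, FAR). `~` as in E1BH of TH (`Pool/Agent/Helper74/TH/M_E1BH.lean`), invariant under `(a 3b; 3c d)` of type `HTy`, `*`, `b = (0 1; 5 0)`. Given: `∞ ~ 0`, `∞ ~ 1/2`, `1/2 ~ 1`, `∞ ~ 3/2`: all these are equivalent, with `*` also their negatives. Then (apply the word, then the matrix to a known equivalence): `∞ ~ 2` (`∞ ~ -1` by `(-1 -3; 0 -1)`); `-1/2 ~ -2/3` (`1 ~ 0` by `b`, `(10 -3; -15 5)`); `-2/3 ~ -3/5` (`∞ ~ 0` by `(10 -3; -15 5)`); `-3/5 ~ -4/5` (`0 ~ 1/2` by `(10 -3; -15 5)`); `-3/5 ~ -3/4` (`0 ~ 3/5` by `(10 -3; -15 5)`); `4/5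 ~ 5/6` (`-1/2 ~ -3/5` by `b`, `(13 6; 15 7)`); `-1 ~ -5/4` (`-1 ~ -2` by `b`, `(35 6; -30 -5)`); `-1 ~ -4/3` (`-1 ~ -3/2` by `b`, `(35 6; -30 -5)`).
With `*`: `0, ±1, ∞, ±1/2, ±2, ±2/3, ±3/2, ±3/4, ±4/3, ±5/4, ±4/5, ±3/5, ±5/6` are equivalent: both cusps of every matrix in the six lists. Every matrix of `SL₂(ℤ)` is `g' ρ`, `g' = (a 3b; 15c d)` of determinant one, `ρ` in the list of the class of its bottom row modulo `5` up to units (`decide` on `ZMod 3` for each list: exactly one `ρ` satisfies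
`3 ∣ q r1 - p r2`, `3 ∣ r r4 - s r3`). FAR. Models: `Pool/Agent/Helper25/TK5/M_E1BK.lean`, `Pool/Agent/Helper44/TH3/M_E1BH3.lean`. -/
def StHE1b : Prop := HEdg → HPlA → StFar → HE1b

/-- The content of O1. -/
def HO1 : Prop := ∀ (k : ℕ) (G : ℤ → ℤ → ℂ), 1 ≤ k → BalOH k G →
  ((((fun p : Pt k => edgeH 0 1 0 0 1 G p.1 p.2), (fun p : Pt k => edgeH 0 1 0 1 2 G p.1 p.2)),
    (fun p : Pt k => edgeH 0 1 0 1 3 G p.1 p.2)) ∈ subOH k) ∧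
  ((∀ x y : ZMod (3 ^ k), edgeH 0 1 0 0 1 G x y = 0 ∧ edgeH 0 1 0 1 2 G x y = 0 ∧
    edgeH 0 1 0 1 3 G x y = 0) → EqC G 0)

/-- O1 (from EDG, PLA, TYP, FAR). Odd exponent, `m = k`, `μ = 0`, `b = (0 1; 15 0)`: `f = {∞, 0}`, `l = {∞, 1/2}`, `e = {∞, 1/3}`. `f(ng p) = f(p)`, `f(swH p) = f(p)`; `l(dR 0 p) = l(p)`, `l(cOH p) = -{1/2, ∞} = l(p)` (`(15 -7; 30 -15)`); `e(deH p) = {1/3, ∞} = -e(p)` (`(5 -2; 15 -5)`, an element of the group: no sign).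
Square `∞, 0, 1/5, 1/3`: `e(swH p) = -{0, 1/5}`, `l(deH p) = {1/3, 1/5}`: `e(p) + e(swH p) + l(deH p) - f(p) = {∞,1/3} - {0,1/5} + {1/3,1/5} - {∞,0} = 0`. Injectivity (`~` as in E1B for `(a b; 3c d)` of type `HTy`): given `∞ ~ 0`, `∞ ~ 1/2`, `∞ ~ 1/3`; `∞ ~ -1` (`∞ ~ 0` by `(1 -1; 0 1)`); `-1/2 ~ -2/5` (`∞ ~ -1/3` by `b`, `(7 1; -15 -2)`); `-1 ~ -2/3` (`0 ~ 1/3` by `(1 -1; 0 1)`); `2/3 ~ 3/4` (`1/3 ~ 0` by `(11 -3; 15 -4)`). With `*`: `0, ±1, ∞, ±1/2, ±1/3, ±3/4, ±2/5` are equivalent: both cusps of every matrix in `LHO`; every matrix of `SL₂(ℤ)`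
is `g' ρ` with `g'` in `Γ₀(15)` and `ρ` in `LHO` (bottom rows modulo `15` up to units; `decide` on `ZMod 5` and `ZMod 3` separately if `ZMod 15` is too slow). FAR. Models: `Pool/Agent/Helper53/TK5/M_O1K.lean`, `Pool/Agent/Helper67/TH3/M_O1H3.lean`. -/
def StHO1 : Prop := HEdg → HPlA → HTyp → StFar → HO1

/-- The dimension of the new symbols of level `5 * 3^n` (`W = -1`, `* = +1`), `n ≥ 3`. -/
def dd (n : ℕ) : ℕ :=
  if n % 2 = 1 then 2 * 9 ^ (n / 2 - 1) + 3 ^ (n / 2 - 1) else 6 * 9 ^ (n / 2 - 2) + 3 ^ (n / 2 - 2)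

/-- UB. For `n = 2k ≥ 4` the map to the four functions in `subEH (k-1)`, of dimension `dd n`; for `n = 2k+1 ≥ 3` the map to the three functions in `subOH k`, of dimension `dd n`. Models: `Pool/Agent/Helper80/TK5/M_UBHK.lean`, `Pool/Agent/Helper8/TH3/M_UBH3.lean`. -/
def StHUB : Prop := HBal → HE1a → HE1b → HO1 → HDimE → HDimO → UBH 3 dd

end Pool.Agent.Helper76.Q5P3
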