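import Pool.Agent.Helper10.W3.M_Trq
import Pool.Agent.Helper38.CV.M_Far
import Pool.Agent.Helper2.TH3.M_DIMKH3
import Pool.Agent.Helper16.TH3.M_SPLH3
import Pool.Agent.Helper80.Q5P3.M_PLA
import Pool.Agent.Helper51.Q5P3.M_EDG
import Pool.Agent.Helper73.Q5P3.M_BAL
import Pool.Agent.Helper55.Q5P3.M_TYP
import Pool.Agent.Helper9.Q5P3.M_DIM1
import Pool.Agent.Helper27.Q5P3.M_DIME
import Pool.Agent.Helper98.Q5P3.M_DIMO
import Pool.Agent.Helper66.Q5P3.M_E1A
import Pool.Agent.Helper25.Q5P3.M_E1B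
import Pool.Agent.Helper60.Q5P3.M_O1
import Pool.Agent.Helper10.Q5P3.M_UB

/-!
# Project T5 (3,5): the upper bound for the new symbols of level `5 * 3^n` with `W_5 = +1`, assembled
-/

set_option autoImplicit false

namespace Pool.Agent.Helper76.Q5P3

open Pool.Agent.Helper83.T5C

/-- Values on translated paths. -/
theorem edg35 : HEdg := Pool.Agent.Helper51.Q5P3.hEdg Pool.Agent.Helper80.Q5P3.hPlA

/-- The upper bound for the levels `5 * 3^n`. -/
theorem ub35 : UBH 3 dd := by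
  have pla := Pool.Agent.Helper80.Q5P3.hPlA
  have typ := Pool.Agent.Helper55.Q5P3.hTyp
  have dim1 := Pool.Agent.Helper9.Q5P3.hDim1 Pool.Agent.Helper10.W3.hTrq
  have dimK := Pool.Agent.Helper2.TH3.hDimKH3 Pool.Agent.Helper10.W3.hTrq
  have split := Pool.Agent.Helper16.TH3.hSplH3
  have far := Pool.Agent.Helper38.CV.hFar
  exact Pool.Agent.Helper10.Q5P3.hUB Pool.Agent.Helper73.Q5P3.hBal
    (Pool.Agent.Helper66.Q5P3.hE1A edg35 pla typ)
    (Pool.Agent.Helper25.Q5P3.hE1B edg35 pla far)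
    (Pool.Agent.Helper60.Q5P3.hO1 edg35 pla typ far)
    (Pool.Agent.Helper27.Q5P3.hDimE typ dim1 dimK split)
    (Pool.Agent.Helper98.Q5P3.hDimO typ dim1 dimK split)

end Pool.Agent.Helper76.Q5P3
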